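import Pool.Agent.W209.CF.Basic

/-!
Project CF3, step F7.
-/

namespace Pool.Agent.W110.CF3

open Finset
open Pool.Agent.W209.CF

section
variable {V E : Type} [Fintype V] [DecidableEq V] [Fintype E] [DecidableEq E]
variable {inc : E → Finset V}

/-- at a vertex of `dg` one there is only one coloured hyperedge -/
theorem dg_one_unique {s : E → Fin 3} {v : V} (h : dg inc s v = 1) {e e' : E}
    (he : v ∈ inc e) (hs : s e ≠ 0) (he' : v ∈ inc e') (hs' : s e' ≠ 0) : e = e' := by
  rw [dg_eq_card] at h
  exact Finset.card_le_one.1 (le_of_eq h) e (by simp [he, hs]) e' (by simp [he', hs'])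

theorem rtg_symm {s : E → Fin 3} {e e' : E} (h : Relation.ReflTransGen (Adj inc s) e e') :
    Relation.ReflTransGen (Adj inc s) e' e := by
  induction h with
  | refl => exact Relation.ReflTransGen.refl
  | tail _ h2 ih => exact Relation.ReflTransGen.head h2.symm ih

theorem rtg_mem {s : E → Fin 3} {A : E → Prop} (hA : ∀ x y, A x → Adj inc s x y → A y)
    {e e' : E} (h : Relation.ReflTransGen (Adj inc s) e e') (he : A e) : A e' := by
  induction h with
  | refl => exact he
  | tail _ h2 ih => exact hA _ _ ih h2

end

theorem f7 : S_irr → S_F1 → S_F2 → S_F7 := by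
  intro _ hF1 hF2 V E _ _ _ _ inc hcard s hs u h hent f w w' z hf hww hzw hzw' hw hw' huw huw' hz
  -- the vertex z
  obtain ⟨z0, hf0, -, -, hdz, hnb⟩ := hF2 V E inc hcard s hs f w (by rw [hf]; simp) w'
    (by rw [hf]; simp) hww hw hw'
  have hzz : z = z0 := by
    have h1 : z ∈ inc f := by rw [hf]; simp
    rw [hf0] at h1
    simp only [mem_insert, mem_singleton] at h1
    rcases h1 with h1 | h1 | h1
    · exact absurd h1 hzw
    · exact absurd h1 hzw'
    · exact h1
  subst hzz
  clear hf0
  obtain ⟨huh, hdu, hoth⟩ := hent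
  have hSt : St inc s := hs.1.1
  have hzh : z ∉ inc h := by
    intro h1
    by_cases h2 : z = u
    · rw [h2, hdu] at hdz
      exact absurd hdz (by decide)
    · rw [hoth z h1 h2] at hdz
      exact absurd hdz (by decide)
  -- the coloured hyperedges at z
  have hone : ∀ e v, s e ≠ 0 → z ∈ inc e → v ∈ inc e → v ≠ z → dg inc s v = 1 :=
    fun e v h1 h2 h3 h4 => hnb e h1 h2 v h3 h4
  have hclosed : ∀ x y, (z ∈ inc x ∧ s x ≠ 0) → Adj inc s x y → (z ∈ inc y ∧ s y ≠ 0) := by
    rintro x y ⟨h1, h2⟩ ⟨h3, h4, v, h5, h6⟩
    by_cases h7 : v = z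
    · subst h7
      exact ⟨h6, h4⟩
    · have h8 := hone x v h2 h1 h5 h7
      have h9 := dg_one_unique h8 h5 h3 h6 h4
      subst h9
      exact ⟨h1, h4⟩
  -- the other two vertices of h
  obtain ⟨a, b, hab, hinc⟩ : ∃ a b, a ≠ b ∧ (inc h).erase u = {a, b} := by
    have h1 : ((inc h).erase u).card = 2 := by
      rw [Finset.card_erase_of_mem huh, hcard h]
    obtain ⟨a, b, h2, h3⟩ := Finset.card_eq_two.1 h1
    exact ⟨a, b, h2, h3⟩
  have hah' : a ∈ (inc h).erase u := by rw [hinc]; simp
  have hbh' : b ∈ (inc h).erase u := by rw [hinc]; simp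
  rw [mem_erase] at hah' hbh'
  obtain ⟨hau, hah⟩ := hah'
  obtain ⟨hbu, hbh⟩ := hbh'
  have hmem : ∀ v ∈ inc h, v = u ∨ v = a ∨ v = b := by
    intro v hv
    by_cases h1 : v = u
    · exact Or.inl h1
    · right
      have h2 : v ∈ (inc h).erase u := mem_erase.2 ⟨h1, hv⟩
      rw [hinc] at h2
      simpa using h2
  have hda : dg inc s a = 1 := hoth a hah hau
  have hdb : dg inc s b = 1 := hoth b hbh hbu
  obtain ⟨ea, haea, hsea⟩ := dg_pos.1 (show dg inc s a ≠ 0 by omega)
  obtain ⟨eb, hbeb, hseb⟩ := dg_pos.1 (show dg inc s b ≠ 0 by omega)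
  obtain ⟨hcon, hcol, -, -⟩ := hF1 V E inc hcard s hs u h ⟨huh, hdu, hoth⟩ a hah b hbh hau hbu hab
    ea eb hsea haea hseb hbeb
  -- ea and eb contain z
  have hkey : z ∈ inc ea ∧ z ∈ inc eb := by
    rw [mem_VK] at hz
    obtain ⟨e, he, hze⟩ := hz
    rw [KK, mem_insert] at he
    rcases he with rfl | he
    · exact absurd hze hzh
    rw [mem_comp] at he
    obtain ⟨h1, e', h2, ⟨v, h3, h4⟩, h5⟩ := he
    have h6 : z ∈ inc e' ∧ s e' ≠ 0 := rtg_mem hclosed (rtg_symm h5) ⟨hze, h1⟩
    rcases hmem v h3 with rfl | rfl | rfl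
    · exact absurd (dg_eq_zero.1 hdu e' h4) h2
    · have h7 := dg_one_unique hda h4 h2 haea hsea
      subst h7
      exact ⟨h6.1, (rtg_mem hclosed hcon h6).1⟩
    · have h7 := dg_one_unique hdb h4 h2 hbeb hseb
      subst h7
      exact ⟨(rtg_mem hclosed (rtg_symm hcon) h6).1, h6.1⟩
  obtain ⟨hzea, hzeb⟩ := hkey
  have haz : a ≠ z := fun h1 => by rw [h1] at hda; omega
  -- the new colouring
  have hwf : w ∈ inc f := by rw [hf]; simp
  have hwf' : w' ∈ inc f := by rw [hf]; simp
  have hzf : z ∈ inc f := by rw [hf]; simp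
  have hfm : ∀ v ∈ inc f, v = w ∨ v = w' ∨ v = z := by
    intro v hv
    rw [hf] at hv
    simpa using hv
  have hsf : s f = 0 := dg_eq_zero.1 hw f hwf
  have hsh : s h = 0 := dg_eq_zero.1 hdu h huh
  have huz : u ≠ z := fun h1 => by rw [h1] at hdu; omega
  have huf : u ∉ inc f := by
    intro h1
    rcases hfm u h1 with h2 | h2 | h2
    · exact huw h2
    · exact huw' h2
    · exact huz h2
  have hfh : h ≠ f := by
    rintro rfl
    exact huf huh
  have hfea : f ≠ ea := by
    rintro rfl
    exact hsea hsf
  have hhea : h ≠ ea := by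
    rintro rfl
    exact hsea hsh
  set α := s ea with hα
  have hc : ∀ i, i ≠ 0 → ∀ v, cnt inc (Function.update (Function.update
      (Function.update s ea 0) f α) h α) i v + (if v ∈ inc ea ∧ α = i then 1 else 0) =
      cnt inc s i v + (if v ∈ inc f ∧ α = i then 1 else 0) +
        (if v ∈ inc h ∧ α = i then 1 else 0) := by
    intro i hi v
    rw [cnt_update (f := h) (c := Function.update (Function.update s ea 0) f α)
      (by rw [Function.update_of_ne hfh, Function.update_of_ne hhea, hsh]) α hi,
      cnt_update (f := f) (c := Function.update s ea 0)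
      (by rw [Function.update_of_ne hfea, hsf]) α hi, cnt_erase (c := s) (f := ea) hi, ← hα]
    omega
  set t := Function.update (Function.update (Function.update s ea 0) f α) h α with ht
  have hbea : b ∉ inc ea := by
    intro h1
    have h2 := dg_one_unique hdb h1 hsea hbeb hseb
    rw [hα, h2] at hcol
    exact hcol rfl
  have hzero : ∀ v, dg inc s v = 0 → v ∉ inc ea := by
    intro v h1 h2
    exact hsea (dg_eq_zero.1 h1 ea h2)
  have hca : ∀ v, cnt inc s α v ≤ dg inc s v := by
    intro v
    unfold dg
    rcases eq_one_or_two hsea with h1 | h1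
    · rw [h1]; omega
    · rw [h1]; omega
  have hczero : ∀ v, dg inc s v = 0 → cnt inc s α v = 0 := fun v hv => by
    have := hca v
    omega
  have hcle : ∀ v, cnt inc s α v ≤ 1 := by
    intro v
    rcases eq_one_or_two hsea with h1 | h1
    · rw [h1]; exact (hSt v).1
    · rw [h1]; exact (hSt v).2
  have hcb : cnt inc s α b = 0 := by
    rw [cnt_eq_zero]
    intro e h1 h2
    have h3 : s e ≠ 0 := by rw [h2]; exact hsea
    have h4 := dg_one_unique hdb h1 h3 hbeb hseb
    rw [h4] at h2
    exact hcol h2.symm
  have hfh0 : ∀ v, v ∈ inc f → v ∉ inc h := by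
    intro v h1 h2
    rcases hfm v h1 with rfl | rfl | rfl
    · rw [hoth v h2 (fun h3 => huw h3.symm)] at hw
      exact absurd hw (by decide)
    · rw [hoth v h2 (fun h3 => huw' h3.symm)] at hw'
      exact absurd hw' (by decide)
    · exact hzh h2
  have htSt : St inc t := by
    have hgen : ∀ v, cnt inc t α v ≤ 1 := by
      intro v
      have h1 := hc α hsea v
      simp only [and_true] at h1
      by_cases h2 : v ∈ inc f
      · rw [if_pos h2, if_neg (hfh0 v h2)] at h1
        rcases hfm v h2 with rfl | rfl | rfl
        · rw [if_neg (hzero v hw), hczero v hw] at h1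
          omega
        · rw [if_neg (hzero v hw'), hczero v hw'] at h1
          omega
        · rw [if_pos hzea] at h1
          have := hcle v
          omega
      · rw [if_neg h2] at h1
        by_cases h3 : v ∈ inc h
        · rw [if_pos h3] at h1
          rcases hmem v h3 with rfl | rfl | rfl
          · rw [if_neg (hzero v hdu), hczero v hdu] at h1
            omega
          · rw [if_pos haea] at h1
            have := hcle v
            omega
          · rw [if_neg hbea, hcb] at h1
            omega
        · rw [if_neg h3] at h1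
          have := hcle v
          omega
    have hother : ∀ i, i ≠ 0 → i ≠ α → ∀ v, cnt inc t i v = cnt inc s i v := by
      intro i hi hia v
      have h1 := hc i hi v
      rw [if_neg (fun h2 => hia h2.2.symm), if_neg (fun h2 => hia h2.2.symm),
        if_neg (fun h2 => hia h2.2.symm)] at h1
      omega
    intro v
    rcases eq_one_or_two hsea with h1 | h1
    · refine ⟨?_, ?_⟩
      · have := hgen v
        rwa [h1] at this
      · rw [hother 2 (by decide) (by rw [h1]; decide) v]
        exact (hSt v).2
    · refine ⟨?_, ?_⟩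
      · rw [hother 1 (by decide) (by rw [h1]; decide) v]
        exact (hSt v).1
      · have := hgen v
        rwa [h1] at this
  have hdt : ∀ v, dg inc t v + (if v ∈ inc ea then 1 else 0) =
      dg inc s v + (if v ∈ inc f then 1 else 0) + (if v ∈ inc h then 1 else 0) := by
    intro v
    have h1 := hc 1 (by decide) v
    have h2 := hc 2 (by decide) v
    unfold dg
    rcases eq_one_or_two hsea with h3 | h3
    · rw [h3] at h1 h2
      simp only [and_true, show ((1 : Fin 3) = 2) = False by simp, and_false, if_false,
        Nat.add_zero] at h1 h2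
      omega
    · rw [h3] at h1 h2
      simp only [and_true, show ((2 : Fin 3) = 1) = False by simp, and_false, if_false,
        Nat.add_zero] at h1 h2
      omega
  have hdea : ∀ v, v ∈ inc ea → 1 ≤ dg inc s v := by
    intro v hv
    exact Nat.one_le_iff_ne_zero.2 (dg_pos.2 ⟨ea, hv, hsea⟩)
  have hsub : holes inc t ⊆ (holes inc s \ {u, w, w'}) ∪ (inc ea \ {z, a}) := by
    intro v hv
    rw [mem_holes] at hv
    have h1 := hdt v
    have h2 : v ∉ inc f := by
      intro h2
      rw [if_pos h2] at h1
      by_cases h3 : v ∈ inc ea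
      · have := hdea v h3
        rw [if_pos h3] at h1
        omega
      · rw [if_neg h3] at h1
        omega
    have h4 : v ∉ inc h := by
      intro h2
      rw [if_pos h2] at h1
      by_cases h3 : v ∈ inc ea
      · have := hdea v h3
        rw [if_pos h3] at h1
        omega
      · rw [if_neg h3] at h1
        omega
    rw [if_neg h2, if_neg h4] at h1
    rw [mem_union]
    by_cases h3 : v ∈ inc ea
    · right
      rw [mem_sdiff]
      refine ⟨h3, ?_⟩
      simp only [mem_insert, mem_singleton, not_or]
      refine ⟨?_, ?_⟩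
      · rintro rfl
        exact h2 hzf
      · rintro rfl
        exact h4 hah
    · left
      rw [if_neg h3] at h1
      rw [mem_sdiff, mem_holes]
      refine ⟨by omega, ?_⟩
      simp only [mem_insert, mem_singleton, not_or]
      refine ⟨?_, ?_, ?_⟩
      · rintro rfl
        exact h4 huh
      · rintro rfl
        exact h2 hwf
      · rintro rfl
        exact h2 hwf'
  have hc3 : ({u, w, w'} : Finset V).card = 3 := by
    rw [Finset.card_eq_three]
    exact ⟨u, w, w', huw, huw', hww, rfl⟩
  have hsub3 : ({u, w, w'} : Finset V) ⊆ holes inc s := by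
    intro v hv
    simp only [mem_insert, mem_singleton] at hv
    rw [mem_holes]
    rcases hv with rfl | rfl | rfl
    · exact hdu
    · exact hw
    · exact hw'
  have hc1 : (holes inc s \ {u, w, w'}).card + 3 = (holes inc s).card := by
    rw [← hc3]
    exact Finset.card_sdiff_add_card_eq_card hsub3
  have hc2 : (inc ea \ {z, a}).card + 2 = 3 := by
    rw [← hcard ea, ← Finset.card_pair haz.symm]
    apply Finset.card_sdiff_add_card_eq_card
    intro v hv
    simp only [mem_insert, mem_singleton] at hv
    rcases hv with rfl | rfl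
    · exact hzea
    · exact haea
  have hle := Finset.card_le_card hsub
  have hle2 := Finset.card_union_le (holes inc s \ {u, w, w'}) (inc ea \ {z, a})
  have hopt := hs.1.2 t htSt
  omega

end Pool.Agent.W110.CF3
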